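import Mathlib

/-!
# Domino games: passing can save player `B`, already on the full lattice `ℤ`

We exhibit an alphabet with four colours and six forbidden words on `ℤ` such that `A` wins the
game without passing on `E = ℤ`, while `B` wins the game with passing on `E = ℤ`.

Colours: `ra, rb` (type R) and `la, lb` (type L), partners `ra ~ la`, `rb ~ lb`.
Forbidden words: `ra lb`, `rb la`, `ra ra rb lb`, `ra rb rb lb`, `rb lb lb la la`, `rb lb lb lb la`.
-/

set_option autoImplicit false

namespace Pool.Agent.Results.MP_d015f1_co.ZugzwangOnZ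

/-- A finite pattern `p = (S, f)` with `S ⊆ ℤ^d` finite and `f ∈ 𝒜^S`. -/
structure Pattern (d : ℕ) (𝒜 : Type) where
  supp : Finset (Fin d → ℤ)
  col : supp → 𝒜

/-- A position of the game: the current pattern, a partially defined colouring of `ℤ^d`
(`none` means uncoloured). -/
abbrev Position (d : ℕ) (𝒜 : Type) := (Fin d → ℤ) → Option 𝒜

variable {d : ℕ} {𝒜 : Type}

/-- The pattern `p` appears in `q`: for some `i`, `i + S ⊆ supp q` and `q_{i+s} = f(s)` on `S`. -/
def Appears (p : Pattern d 𝒜) (q : Position d 𝒜) : Prop :=
  ∃ i : Fin d → ℤ, ∀ s (hs : s ∈ p.supp), q (i + s) = some (p.col ⟨s, hs⟩)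

/-- `q'` is obtained from `q` by colouring one uncoloured cell of `E`. -/
def Colours (E : Set (Fin d → ℤ)) (q q' : Position d 𝒜) : Prop :=
  ∃ x ∈ E, ∃ a : 𝒜, q x = none ∧ q' = Function.update q x (some a)

/-- Positions winning for `A`, in the inductive sense. The Boolean is `true` when `A` is to move;
`pass` says whether passing is allowed. Positions where a forbidden pattern appears are final and
won by `A`; if all of `E` is coloured and no forbidden pattern appears, the game is over and `B` has won. -/
inductive WinA (pass : Prop) (F : Set (Pattern d 𝒜)) (E : Set (Fin d → ℤ)) :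
    Bool → Position d 𝒜 → Prop
  | final (t : Bool) (q : Position d 𝒜) : (∃ p ∈ F, Appears p q) → WinA pass F E t q
  | moveA (q q' : Position d 𝒜) : Colours E q q' → WinA pass F E false q' → WinA pass F E true q
  | passA (q : Position d 𝒜) : pass → WinA pass F E false q → WinA pass F E true q
  | moveB (q : Position d 𝒜) : (∃ x ∈ E, q x = none) →
      (∀ q', Colours E q q' → WinA pass F E true q') →
      (pass → WinA pass F E true q) → WinA pass F E false q

/-- `Γ(𝒜, F, E)` (passing allowed) is winning for `A`. -/
def GammaWinA (F : Set (Pattern d 𝒜)) (E : Set (Fin d → ℤ)) : Prop :=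
  WinA True F E true (fun _ => none)

/-- `Γ*(𝒜, F, E)` (passing not allowed) is winning for `A`. -/
def GammaStarWinA (F : Set (Pattern d 𝒜)) (E : Set (Fin d → ℤ)) : Prop :=
  WinA False F E true (fun _ => none)

/-! ### the example -/

/-- the four colours -/
inductive Col
  | ra | rb | la | lb
  deriving DecidableEq

open Col

instance : Fintype Col := ⟨{ra, rb, la, lb}, by intro x; cases x <;> simp⟩

/-- type R colours -/
def isR : Col → Bool
  | ra => true
  | rb => true
  | la => false
  | lb => false

/-- partner -/
def pr : Col → Col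
  | ra => la
  | rb => lb
  | la => ra
  | lb => rb

/-- the cell `n` of `ℤ^1` -/
def cell (n : ℤ) : Fin 1 → ℤ := fun _ => n

lemma cell_inj {m n : ℤ} : cell m = cell n ↔ m = n := by
  constructor
  · intro h
    have := congrFun h 0
    exact this
  · rintro rfl
    rfl

lemma cell_surj (x : Fin 1 → ℤ) : ∃ n, x = cell n := by
  refine ⟨x 0, ?_⟩
  funext i
  fin_cases i
  rfl

lemma cell_add (m n : ℤ) : cell m + cell n = cell (m + n) := rfl

/-- a word `w` as a pattern on the cells `0, ..., |w| - 1` of `ℤ` -/
def word (w : List Col) : Pattern 1 Col where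
  supp := (Finset.range w.length).image (fun k : ℕ => cell (k : ℤ))
  col := fun s => w.getD ((s : Fin 1 → ℤ) 0).toNat ra

lemma appears_word (w : List Col) (q : Position 1 Col) :
    Appears (word w) q ↔ ∃ n : ℤ, ∀ k < w.length, q (cell (n + k)) = some (w.getD k ra) := by
  constructor
  · rintro ⟨i, hi⟩
    obtain ⟨n, rfl⟩ := cell_surj i
    refine ⟨n, ?_⟩
    intro k hk
    have := hi (cell (k:ℤ)) (by
      simp only [word, Finset.mem_image, Finset.mem_range]
      exact ⟨k, hk, rfl⟩)
    simpa [word, cell_add, cell] using this
  · rintro ⟨n, hn⟩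
    refine ⟨cell n, ?_⟩
    intro s hs
    have hs' := hs
    simp only [word, Finset.mem_image, Finset.mem_range] at hs'
    obtain ⟨k, hk, rfl⟩ := hs'
    have := hn k hk
    simpa [word, cell_add, cell] using this

/-- the forbidden patterns -/
def FF : Set (Pattern 1 Col) :=
  {word [ra, lb], word [rb, la], word [ra, ra, rb, lb], word [ra, rb, rb, lb],
    word [rb, lb, lb, la, la], word [rb, lb, lb, lb, la]}

lemma FF_finite : FF.Finite := by
  unfold FF
  exact Set.toFinite _

/-- a forbidden word appears -/
lemma appears_of {w : List Col} (hw : word w ∈ FF) {q : Position 1 Col} (n : ℤ)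
    (h : ∀ k < w.length, q (cell (n + k)) = some (w.getD k ra)) : ∃ p ∈ FF, Appears p q :=
  ⟨word w, hw, (appears_word w q).2 ⟨n, h⟩⟩

/-! ### `B` survives when passing is allowed -/

/-- the invariant (positions with `A` to move) -/
structure Inv (Q : ℤ → Option Col) : Prop where
  R : ∀ n c, Q n = some c → isR c = true → ∃ c', Q (n+1) = some c' ∧ (isR c' = true ∨ c' = pr c)
  L : ∀ n c, Q n = some c → isR c = false → ∃ c', Q (n-1) = some c' ∧ (isR c' = false ∨ c = pr c')
  T1 : ∀ n u, isR u = true → Q (n+1) = some u → Q (n+2) = some rb → Q (n+3) = some lb →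
    ∃ e, Q n = some e ∧ e ≠ ra
  T2 : ∀ n x, isR x = false → Q n = some rb → Q (n+1) = some lb → Q (n+2) = some lb →
    Q (n+3) = some x → ∃ e, Q (n+4) = some e ∧ e ≠ la

/-- no forbidden word -/
structure NoPat (Q : ℤ → Option Col) : Prop where
  P1 : ∀ n, Q n = some ra → Q (n+1) = some lb → False
  P2 : ∀ n, Q n = some rb → Q (n+1) = some la → False
  P3 : ∀ n u, isR u = true → Q n = some ra → Q (n+1) = some u → Q (n+2) = some rb →
    Q (n+3) = some lb → False
  P4 : ∀ n x, isR x = false → Q n = some rb → Q (n+1) = some lb → Q (n+2) = some lb →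
    Q (n+3) = some x → Q (n+4) = some la → False

lemma not_appears_of_noPat {q : Position 1 Col} (h : NoPat (fun n => q (cell n))) :
    ¬ ∃ p ∈ FF, Appears p q := by
  rintro ⟨p, hp, hap⟩
  simp only [FF, Set.mem_insert_iff, Set.mem_singleton_iff] at hp
  rcases hp with rfl | rfl | rfl | rfl | rfl | rfl <;> rw [appears_word] at hap <;>
    obtain ⟨n, hn⟩ := hap
  · have h0 := hn 0 (by simp)
    have h1 := hn 1 (by simp)
    simp at h0 h1
    exact h.P1 n h0 h1
  · have h0 := hn 0 (by simp)
    have h1 := hn 1 (by simp)
    simp at h0 h1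
    exact h.P2 n h0 h1
  · have h0 := hn 0 (by simp)
    have h1 := hn 1 (by simp)
    have h2 := hn 2 (by simp)
    have h3 := hn 3 (by simp)
    simp at h0 h1 h2 h3
    exact h.P3 n ra rfl h0 h1 h2 h3
  · have h0 := hn 0 (by simp)
    have h1 := hn 1 (by simp)
    have h2 := hn 2 (by simp)
    have h3 := hn 3 (by simp)
    simp at h0 h1 h2 h3
    exact h.P3 n rb rfl h0 h1 h2 h3
  · have h0 := hn 0 (by simp)
    have h1 := hn 1 (by simp)
    have h2 := hn 2 (by simp)
    have h3 := hn 3 (by simp)
    have h4 := hn 4 (by simp)
    simp at h0 h1 h2 h3 h4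
    exact h.P4 n la rfl h0 h1 h2 h3 h4
  · have h0 := hn 0 (by simp)
    have h1 := hn 1 (by simp)
    have h2 := hn 2 (by simp)
    have h3 := hn 3 (by simp)
    have h4 := hn 4 (by simp)
    simp at h0 h1 h2 h3 h4
    exact h.P4 n lb rfl h0 h1 h2 h3 h4

lemma Inv.noPat {Q : ℤ → Option Col} (h : Inv Q) : NoPat Q where
  P1 := by
    intro n h0 h1
    obtain ⟨c', hc, hc'⟩ := h.R n ra h0 rfl
    rw [h1] at hc
    cases hc
    simp [isR, pr] at hc'
  P2 := by
    intro n h0 h1
    obtain ⟨c', hc, hc'⟩ := h.R n rb h0 rfl
    rw [h1] at hc
    cases hc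
    simp [isR, pr] at hc'
  P3 := by
    intro n u hu h0 h1 h2 h3
    obtain ⟨e, he, he'⟩ := h.T1 n u hu h1 h2 h3
    rw [h0] at he
    cases he
    exact he' rfl
  P4 := by
    intro n x hx h0 h1 h2 h3 h4
    obtain ⟨e, he, he'⟩ := h.T2 n x hx h0 h1 h2 h3
    rw [h4] at he
    cases he
    exact he' rfl


/-- colour the cell `y` -/
def upd (Q : ℤ → Option Col) (y : ℤ) (c : Col) : ℤ → Option Col :=
  fun n => if n = y then some c else Q n

lemma upd_self (Q : ℤ → Option Col) (y : ℤ) (c : Col) : upd Q y c y = some c := by simp [upd]

lemma upd_ne (Q : ℤ → Option Col) {y n : ℤ} (c : Col) (h : n ≠ y) : upd Q y c n = Q n := by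
  simp [upd, h]

lemma Inv.f1 {Q : ℤ → Option Col} (h : Inv Q) {y : ℤ} (hy : Q y = none) :
    ∀ c', Q (y-1) = some c' → isR c' = false := by
  intro c' hc'
  by_contra hcon
  rw [Bool.not_eq_false] at hcon
  obtain ⟨e, he, _⟩ := h.R (y-1) c' hc' hcon
  rw [show y - 1 + 1 = y by ring, hy] at he
  cases he

lemma Inv.f2 {Q : ℤ → Option Col} (h : Inv Q) {y : ℤ} (hy : Q y = none) :
    ∀ c', Q (y+1) = some c' → isR c' = true := by
  intro c' hc'
  by_contra hcon
  rw [Bool.not_eq_true] at hcon
  obtain ⟨e, he, _⟩ := h.L (y+1) c' hc' hcon
  rw [show y + 1 - 1 = y by ring, hy] at he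
  cases he

lemma noPat_upd {Q : ℤ → Option Col} (h : Inv Q) {y : ℤ} (hy : Q y = none) (c : Col) :
    NoPat (upd Q y c) := by
  have f1 := h.f1 hy
  have f2 := h.f2 hy
  have hn := h.noPat
  constructor
  · intro n h0 h1
    by_cases e0 : n = y
    · subst e0
      rw [upd_ne _ _ (by omega)] at h1
      have := f2 _ h1
      cases this
    · by_cases e1 : n + 1 = y
      · rw [upd_ne _ _ e0] at h0
        have := f1 ra (by rw [← h0]; congr 1; omega)
        cases this
      · rw [upd_ne _ _ e0] at h0
        rw [upd_ne _ _ e1] at h1
        exact hn.P1 n h0 h1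
  · intro n h0 h1
    by_cases e0 : n = y
    · subst e0
      rw [upd_ne _ _ (by omega)] at h1
      have := f2 _ h1
      cases this
    · by_cases e1 : n + 1 = y
      · rw [upd_ne _ _ e0] at h0
        have := f1 rb (by rw [← h0]; congr 1; omega)
        cases this
      · rw [upd_ne _ _ e0] at h0
        rw [upd_ne _ _ e1] at h1
        exact hn.P2 n h0 h1
  · intro n u hu h0 h1 h2 h3
    by_cases e0 : n = y
    · subst e0
      rw [upd_ne _ _ (by omega)] at h1 h2 h3
      obtain ⟨e, he, _⟩ := h.T1 n u hu h1 h2 h3
      rw [hy] at he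
      cases he
    · rw [upd_ne _ _ e0] at h0
      by_cases e1 : n + 1 = y
      · have := f1 ra (by rw [← h0]; congr 1; omega)
        cases this
      · rw [upd_ne _ _ e1] at h1
        by_cases e2 : n + 2 = y
        · have := f1 u (by rw [← h1]; congr 1; omega)
          rw [hu] at this
          cases this
        · rw [upd_ne _ _ e2] at h2
          by_cases e3 : n + 3 = y
          · have := f1 rb (by rw [← h2]; congr 1; omega)
            cases this
          · rw [upd_ne _ _ e3] at h3
            exact hn.P3 n u hu h0 h1 h2 h3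
  · intro n x hx h0 h1 h2 h3 h4
    by_cases e4 : n + 4 = y
    · rw [upd_ne _ _ (by omega)] at h0 h1 h2 h3
      obtain ⟨e, he, _⟩ := h.T2 n x hx h0 h1 h2 h3
      rw [e4, hy] at he
      cases he
    · rw [upd_ne _ _ e4] at h4
      by_cases e3 : n + 3 = y
      · have := f2 la (by rw [← h4]; congr 1; omega)
        cases this
      · rw [upd_ne _ _ e3] at h3
        by_cases e2 : n + 2 = y
        · have := f2 x (by rw [← h3]; congr 1; omega)
          rw [hx] at this
          cases this
        · rw [upd_ne _ _ e2] at h2
          by_cases e1 : n + 1 = y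
          · have := f2 lb (by rw [← h2]; congr 1; omega)
            cases this
          · rw [upd_ne _ _ e1] at h1
            by_cases e0 : n = y
            · have := f2 lb (by rw [← h1, e0])
              cases this
            · rw [upd_ne _ _ e0] at h0
              exact hn.P4 n x hx h0 h1 h2 h3 h4

set_option maxHeartbeats 1000000 in
lemma inv_caseA1 {Q : ℤ → Option Col} (h : Inv Q) {y : ℤ} (hy : Q y = none) (c : Col)
    (hc : isR c = true) (hy1 : Q (y+1) = none) : Inv (upd (upd Q y c) (y+1) (pr c)) := by
  have f1 := h.f1 hy
  have f3 := h.f2 hy1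
  have hpr : isR (pr c) = false := by revert hc; cases c <;> decide
  constructor
  · intro n c0 h0 hc0
    unfold upd at h0 ⊢
    split_ifs at h0 with e1 e2
    · cases h0
      rw [hpr] at hc0
      cases hc0
    · cases h0
      subst e2
      simp
    · have hR := h.R n c0 h0 hc0
      rw [if_neg (by omega), if_neg]
      · exact hR
      · intro e
        rw [e, hy] at hR
        simp at hR
  · intro n c0 h0 hc0
    unfold upd at h0 ⊢
    split_ifs at h0 with e1 e2
    · cases h0
      subst e1
      rw [if_neg (by omega), if_pos (by omega)]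
      simp
    · cases h0
      rw [hc] at hc0
      cases hc0
    · have hL := h.L n c0 h0 hc0
      rw [if_neg, if_neg]
      · exact hL
      · intro e
        rw [e, hy] at hL
        simp at hL
      · intro e
        rw [e, hy1] at hL
        simp at hL
  · intro n u hu h1 h2 h3
    unfold upd at h1 h2 h3 ⊢
    by_cases a1 : n + 1 = y + 1
    · rw [if_pos a1] at h1
      cases h1
      rw [hpr] at hu; cases hu
    rw [if_neg a1] at h1
    by_cases a2 : n + 1 = y
    · rw [if_pos (by omega)] at h2
      have h2' := Option.some.inj h2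
      rw [h2'] at hpr
      cases hpr
    rw [if_neg a2] at h1
    by_cases b2 : n + 2 = y
    · have := f1 u (by rw [← h1]; congr 1; omega)
      rw [hu] at this; cases this
    rw [if_neg (by omega), if_neg b2] at h2
    by_cases c2 : n + 3 = y
    · have := f1 rb (by rw [← h2]; congr 1; omega)
      cases this
    rw [if_neg (by omega), if_neg c2] at h3
    obtain ⟨e, he, he2⟩ := h.T1 n u hu h1 h2 h3
    have n1 : n ≠ y := by rintro rfl; rw [hy] at he; cases he
    have n2 : n ≠ y + 1 := by rintro rfl; rw [hy1] at he; cases he
    rw [if_neg n2, if_neg n1]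
    exact ⟨e, he, he2⟩
  · intro n x hx h0 h1 h2 h3
    unfold upd at h0 h1 h2 h3 ⊢
    by_cases a0 : n + 3 = y
    · rw [if_neg (by omega), if_pos a0] at h3
      cases h3
      rw [hc] at hx; cases hx
    by_cases a1 : n + 3 = y + 1
    · rw [if_neg (by omega), if_pos (by omega)] at h2
      cases h2
      cases hc
    by_cases a2 : n + 2 = y + 1
    · rw [if_neg (by omega), if_pos (by omega)] at h1
      cases h1
      cases hc
    by_cases a3 : n + 1 = y + 1
    · rw [if_neg (by omega), if_neg (by omega)] at h2
      have := f3 lb (by rw [← h2]; congr 1; omega)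
      cases this
    by_cases a4 : n = y + 1
    · rw [if_pos a4] at h0
      have h0' := Option.some.inj h0
      rw [h0'] at hpr
      cases hpr
    rw [if_neg (by omega), if_neg (by omega)] at h0 h1 h2 h3
    obtain ⟨e, he, he2⟩ := h.T2 n x hx h0 h1 h2 h3
    have n1 : n + 4 ≠ y := by intro e'; rw [e', hy] at he; cases he
    have n2 : n + 4 ≠ y + 1 := by intro e'; rw [e', hy1] at he; cases he
    rw [if_neg n2, if_neg n1]
    exact ⟨e, he, he2⟩

set_option maxHeartbeats 1000000 in
lemma inv_caseB1 {Q : ℤ → Option Col} (h : Inv Q) {y : ℤ} (hy : Q y = none) (c : Col)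
    (hc : isR c = false) (hy1 : Q (y-1) = none) : Inv (upd (upd Q y c) (y-1) (pr c)) := by
  have f2 := h.f2 hy
  have f3 := h.f1 hy1
  have hpr : isR (pr c) = true := by revert hc; cases c <;> decide
  have hprpr : pr (pr c) = c := by cases c <;> rfl
  constructor
  · intro n c0 h0 hc0
    unfold upd at h0 ⊢
    split_ifs at h0 with e1 e2
    · cases h0
      subst e1
      rw [if_neg (by omega), if_pos (by omega)]
      simp [hprpr]
    · cases h0
      rw [hc] at hc0
      cases hc0
    · have hR := h.R n c0 h0 hc0
      rw [if_neg, if_neg]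
      · exact hR
      · intro e
        rw [e, hy] at hR
        simp at hR
      · intro e
        rw [e, hy1] at hR
        simp at hR
  · intro n c0 h0 hc0
    unfold upd at h0 ⊢
    split_ifs at h0 with e1 e2
    · cases h0
      rw [hpr] at hc0
      cases hc0
    · cases h0
      subst e2
      simp [hprpr]
    · have hL := h.L n c0 h0 hc0
      rw [if_neg, if_neg]
      · exact hL
      · intro e
        rw [e, hy] at hL
        simp at hL
      · intro e
        have e' : n = y := by omega
        exact e2 e'
  · intro n u hu h1 h2 h3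
    unfold upd at h1 h2 h3 ⊢
    by_cases a1 : n + 1 = y
    · rw [if_neg (by omega), if_pos a1] at h1
      cases h1
      rw [hc] at hu; cases hu
    by_cases a2 : n + 1 = y - 1
    · rw [if_neg (by omega), if_pos (by omega)] at h2
      cases h2
      cases hc
    by_cases a3 : n + 2 = y - 1
    · rw [if_neg a2, if_neg a1] at h1
      have := f3 u (by rw [← h1]; congr 1; omega)
      rw [hu] at this; cases this
    by_cases a4 : n + 3 = y - 1
    · rw [if_pos a4] at h3
      have h3' := Option.some.inj h3
      rw [h3'] at hpr
      cases hpr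
    rw [if_neg (by omega), if_neg (by omega)] at h1 h2 h3
    obtain ⟨e, he, he2⟩ := h.T1 n u hu h1 h2 h3
    have n1 : n ≠ y := by rintro rfl; rw [hy] at he; cases he
    have n2 : n ≠ y - 1 := by rintro rfl; rw [hy1] at he; cases he
    rw [if_neg n2, if_neg n1]
    exact ⟨e, he, he2⟩
  · intro n x hx h0 h1 h2 h3
    unfold upd at h0 h1 h2 h3 ⊢
    by_cases a0 : n = y
    · rw [if_neg (by omega), if_pos a0] at h0
      cases h0
      cases hc
    by_cases a1 : n = y - 1
    · rw [if_neg (by omega), if_neg (by omega)] at h2
      have := f2 lb (by rw [← h2]; congr 1; omega)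
      cases this
    by_cases a2 : n + 1 = y - 1
    · rw [if_pos a2] at h1
      have h1' := Option.some.inj h1
      rw [h1'] at hpr
      cases hpr
    by_cases a3 : n + 2 = y - 1
    · rw [if_pos a3] at h2
      have h2' := Option.some.inj h2
      rw [h2'] at hpr
      cases hpr
    by_cases a4 : n + 3 = y - 1
    · rw [if_pos a4] at h3
      have h3' := Option.some.inj h3
      rw [← h3', hpr] at hx
      cases hx
    rw [if_neg (by omega), if_neg (by omega)] at h0 h1 h2 h3
    obtain ⟨e, he, he2⟩ := h.T2 n x hx h0 h1 h2 h3
    have n1 : n + 4 ≠ y := by intro e'; rw [e', hy] at he; cases he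
    have n2 : n + 4 ≠ y - 1 := by intro e'; rw [e', hy1] at he; cases he
    rw [if_neg n2, if_neg n1]
    exact ⟨e, he, he2⟩

lemma inv_passR {Q : ℤ → Option Col} (h : Inv Q) {y : ℤ} (hy : Q y = none) (c c' : Col)
    (hc : isR c = true) (hy1 : Q (y+1) = some c') (hc' : isR c' = true)
    (hno : ¬ (c' = rb ∧ Q (y+2) = some lb ∧ Q (y-1) = none)) : Inv (upd Q y c) := by
  have f1 := h.f1 hy
  constructor
  · intro n c0 h0 hc0
    unfold upd at h0 ⊢
    split_ifs at h0 with e1
    · subst e1
      rw [if_neg (by omega)]
      exact ⟨c', hy1, Or.inl hc'⟩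
    · have hR := h.R n c0 h0 hc0
      rw [if_neg]
      · exact hR
      · intro e
        rw [e, hy] at hR
        simp at hR
  · intro n c0 h0 hc0
    unfold upd at h0 ⊢
    split_ifs at h0 with e1
    · cases h0
      rw [hc] at hc0
      cases hc0
    · have hL := h.L n c0 h0 hc0
      rw [if_neg]
      · exact hL
      · intro e
        rw [e, hy] at hL
        simp at hL
  · intro n u hu h1 h2 h3
    unfold upd at h1 h2 h3 ⊢
    by_cases a1 : n + 1 = y
    · rw [if_neg (by omega)] at h2 h3 ⊢
      have e2 : n + 2 = y + 1 := by omega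
      have e3 : n + 3 = y + 2 := by omega
      have e0 : n = y - 1 := by omega
      rw [e2, hy1] at h2
      rw [e3] at h3
      rw [e0]
      have h2' := Option.some.inj h2
      cases hq : Q (y-1) with
      | none => exact absurd ⟨h2', h3, hq⟩ hno
      | some e =>
        refine ⟨e, rfl, ?_⟩
        rintro rfl
        have := f1 _ hq
        cases this
    rw [if_neg a1] at h1
    by_cases a2 : n + 2 = y
    · have := f1 u (by rw [← h1]; congr 1; omega)
      rw [hu] at this; cases this
    rw [if_neg a2] at h2
    by_cases a3 : n + 3 = y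
    · have := f1 rb (by rw [← h2]; congr 1; omega)
      cases this
    rw [if_neg a3] at h3
    obtain ⟨e, he, he2⟩ := h.T1 n u hu h1 h2 h3
    have n1 : n ≠ y := by rintro rfl; rw [hy] at he; cases he
    rw [if_neg n1]
    exact ⟨e, he, he2⟩
  · intro n x hx h0 h1 h2 h3
    unfold upd at h0 h1 h2 h3 ⊢
    by_cases a0 : n = y
    · rw [if_neg (by omega), a0, hy1] at h1
      have h1' := Option.some.inj h1
      rw [h1'] at hc'
      cases hc'
    by_cases a1 : n + 1 = y
    · rw [if_pos a1] at h1
      cases h1
      cases hc
    by_cases a2 : n + 2 = y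
    · rw [if_pos a2] at h2
      cases h2
      cases hc
    by_cases a3 : n + 3 = y
    · rw [if_pos a3] at h3
      cases h3
      rw [hc] at hx
      cases hx
    rw [if_neg (by omega)] at h0 h1 h2 h3
    obtain ⟨e, he, he2⟩ := h.T2 n x hx h0 h1 h2 h3
    have n1 : n + 4 ≠ y := by intro e'; rw [e', hy] at he; cases he
    rw [if_neg n1]
    exact ⟨e, he, he2⟩

lemma inv_passL {Q : ℤ → Option Col} (h : Inv Q) {y : ℤ} (hy : Q y = none) (c c' : Col)
    (hc : isR c = false) (hy1 : Q (y-1) = some c') (hc' : isR c' = false)
    (hno : ¬ (c' = lb ∧ Q (y-2) = some lb ∧ Q (y-3) = some rb ∧ Q (y+1) = none)) :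
    Inv (upd Q y c) := by
  have f2 := h.f2 hy
  constructor
  · intro n c0 h0 hc0
    unfold upd at h0 ⊢
    split_ifs at h0 with e1
    · cases h0
      rw [hc] at hc0
      cases hc0
    · have hR := h.R n c0 h0 hc0
      rw [if_neg]
      · exact hR
      · intro e
        rw [e, hy] at hR
        simp at hR
  · intro n c0 h0 hc0
    unfold upd at h0 ⊢
    split_ifs at h0 with e1
    · subst e1
      rw [if_neg (by omega)]
      exact ⟨c', hy1, Or.inl hc'⟩
    · have hL := h.L n c0 h0 hc0
      rw [if_neg]
      · exact hL
      · intro e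
        rw [e, hy] at hL
        simp at hL
  · intro n u hu h1 h2 h3
    unfold upd at h1 h2 h3 ⊢
    by_cases a1 : n + 1 = y
    · rw [if_pos a1] at h1
      cases h1
      rw [hc] at hu
      cases hu
    by_cases a2 : n + 2 = y
    · rw [if_pos a2] at h2
      cases h2
      cases hc
    by_cases a3 : n + 3 = y
    · rw [if_neg a2] at h2
      have e2 : n + 2 = y - 1 := by omega
      rw [e2, hy1] at h2
      have h2' := Option.some.inj h2
      rw [h2'] at hc'
      cases hc'
    rw [if_neg (by omega)] at h1 h2 h3
    obtain ⟨e, he, he2⟩ := h.T1 n u hu h1 h2 h3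
    have n1 : n ≠ y := by rintro rfl; rw [hy] at he; cases he
    rw [if_neg n1]
    exact ⟨e, he, he2⟩
  · intro n x hx h0 h1 h2 h3
    unfold upd at h0 h1 h2 h3 ⊢
    by_cases a0 : n = y
    · rw [if_pos a0] at h0
      cases h0
      cases hc
    rw [if_neg a0] at h0
    by_cases a1 : n + 1 = y
    · have e2 : n = y - 1 := by omega
      rw [e2, hy1] at h0
      have h0' := Option.some.inj h0
      rw [h0'] at hc'
      cases hc'
    rw [if_neg a1] at h1
    by_cases a2 : n + 2 = y
    · rw [if_neg (by omega)] at h3
      have := f2 x (by rw [← h3]; congr 1; omega)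
      rw [hx] at this
      cases this
    rw [if_neg a2] at h2
    by_cases a3 : n + 3 = y
    · have e2 : n + 2 = y - 1 := by omega
      have e1 : n + 1 = y - 2 := by omega
      have e0 : n = y - 3 := by omega
      have e4 : n + 4 = y + 1 := by omega
      rw [e2, hy1] at h2
      rw [e1] at h1
      rw [e0] at h0
      rw [if_neg (by omega), e4]
      have h2' := Option.some.inj h2
      cases hq : Q (y+1) with
      | none => exact absurd ⟨h2', h1, h0, hq⟩ hno
      | some e =>
        refine ⟨e, rfl, ?_⟩
        rintro rfl
        have := f2 _ hq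
        cases this
    rw [if_neg a3] at h3
    obtain ⟨e, he, he2⟩ := h.T2 n x hx h0 h1 h2 h3
    have n1 : n + 4 ≠ y := by intro e'; rw [e', hy] at he; cases he
    rw [if_neg n1]
    exact ⟨e, he, he2⟩

lemma inv_caseA2 {Q : ℤ → Option Col} (h : Inv Q) {y : ℤ} (hy : Q y = none) (c : Col)
    (hc : isR c = true) (hy1 : Q (y+1) = some rb) (hy2 : Q (y+2) = some lb)
    (hm : Q (y-1) = none) : Inv (upd (upd Q y c) (y-1) rb) := by
  have f1 := h.f1 hm
  constructor
  · intro n c0 h0 hc0
    unfold upd at h0 ⊢
    split_ifs at h0 with e1 e2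
    · subst e1
      rw [if_neg (by omega), if_pos (by omega)]
      exact ⟨c, rfl, Or.inl hc⟩
    · subst e2
      rw [if_neg (by omega), if_neg (by omega)]
      exact ⟨rb, hy1, Or.inl rfl⟩
    · have hR := h.R n c0 h0 hc0
      rw [if_neg, if_neg]
      · exact hR
      · intro e
        rw [e, hy] at hR
        simp at hR
      · intro e
        rw [e, hm] at hR
        simp at hR
  · intro n c0 h0 hc0
    unfold upd at h0 ⊢
    split_ifs at h0 with e1 e2
    · cases h0
      cases hc0
    · cases h0
      rw [hc] at hc0
      cases hc0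
    · have hL := h.L n c0 h0 hc0
      rw [if_neg, if_neg]
      · exact hL
      · intro e
        rw [e, hy] at hL
        simp at hL
      · intro e
        exact e2 (by omega)
  · intro n u hu h1 h2 h3
    unfold upd at h1 h2 h3 ⊢
    by_cases a1 : n + 1 = y - 1
    · rw [if_neg (by omega), if_neg (by omega)] at h3
      have e3 : n + 3 = y + 1 := by omega
      rw [e3, hy1] at h3
      cases h3
    by_cases a2 : n + 1 = y
    · rw [if_pos (by omega)]
      exact ⟨rb, rfl, by decide⟩
    rw [if_neg a1, if_neg a2] at h1
    by_cases a3 : n + 2 = y - 1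
    · have := f1 u (by rw [← h1]; congr 1; omega)
      rw [hu] at this; cases this
    by_cases a4 : n + 3 = y - 1
    · rw [if_pos a4] at h3
      cases h3
    by_cases a5 : n + 3 = y
    · rw [if_neg a4, if_pos a5] at h3
      cases h3
      cases hc
    rw [if_neg (by omega), if_neg (by omega)] at h2 h3
    obtain ⟨e, he, he2⟩ := h.T1 n u hu h1 h2 h3
    have n1 : n ≠ y := by rintro rfl; rw [hy] at he; cases he
    have n2 : n ≠ y - 1 := by rintro rfl; rw [hm] at he; cases he
    rw [if_neg n2, if_neg n1]
    exact ⟨e, he, he2⟩
  · intro n x hx h0 h1 h2 h3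
    unfold upd at h0 h1 h2 h3 ⊢
    by_cases a0 : n = y
    · rw [if_neg (by omega), if_neg (by omega), a0, hy1] at h1
      cases h1
    by_cases a1 : n + 1 = y
    · rw [if_neg (by omega), if_pos a1] at h1
      cases h1
      cases hc
    by_cases a2 : n + 1 = y - 1
    · rw [if_pos a2] at h1
      cases h1
    by_cases a3 : n + 2 = y - 1
    · rw [if_pos a3] at h2
      cases h2
    by_cases a4 : n + 3 = y - 1
    · rw [if_pos a4] at h3
      cases h3
      cases hx
    by_cases a5 : n + 3 = y
    · rw [if_neg a4, if_pos a5] at h3
      cases h3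
      rw [hc] at hx
      cases hx
    rw [if_neg (by omega), if_neg (by omega)] at h0 h1 h2 h3
    obtain ⟨e, he, he2⟩ := h.T2 n x hx h0 h1 h2 h3
    have n1 : n + 4 ≠ y := by intro e'; rw [e', hy] at he; cases he
    have n2 : n + 4 ≠ y - 1 := by intro e'; rw [e', hm] at he; cases he
    rw [if_neg n2, if_neg n1]
    exact ⟨e, he, he2⟩

lemma inv_caseB2 {Q : ℤ → Option Col} (h : Inv Q) {y : ℤ} (hy : Q y = none) (c : Col)
    (hc : isR c = false) (hy1 : Q (y-1) = some lb) (hy2 : Q (y-2) = some lb)
    (hp : Q (y+1) = none) : Inv (upd (upd Q y c) (y+1) lb) := by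
  have f2 := h.f2 hp
  constructor
  · intro n c0 h0 hc0
    unfold upd at h0 ⊢
    split_ifs at h0 with e1 e2
    · cases h0
      cases hc0
    · cases h0
      rw [hc] at hc0
      cases hc0
    · have hR := h.R n c0 h0 hc0
      rw [if_neg, if_neg]
      · exact hR
      · intro e
        rw [e, hy] at hR
        simp at hR
      · intro e
        exact e2 (by omega)
  · intro n c0 h0 hc0
    unfold upd at h0 ⊢
    split_ifs at h0 with e1 e2
    · subst e1
      rw [if_neg (by omega), if_pos (by omega)]
      exact ⟨c, rfl, Or.inl hc⟩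
    · subst e2
      rw [if_neg (by omega), if_neg (by omega)]
      exact ⟨lb, hy1, Or.inl rfl⟩
    · have hL := h.L n c0 h0 hc0
      rw [if_neg, if_neg]
      · exact hL
      · intro e
        rw [e, hy] at hL
        simp at hL
      · intro e
        rw [e, hp] at hL
        simp at hL
  · intro n u hu h1 h2 h3
    unfold upd at h1 h2 h3 ⊢
    by_cases a1 : n + 1 = y + 1
    · rw [if_pos a1] at h1
      cases h1
      cases hu
    by_cases a2 : n + 1 = y
    · rw [if_neg a1, if_pos a2] at h1
      cases h1
      rw [hc] at hu
      cases hu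
    by_cases a3 : n + 2 = y
    · rw [if_neg (by omega), if_pos a3] at h2
      cases h2
      cases hc
    by_cases a5 : n + 3 = y
    · rw [if_neg (by omega), if_neg (by omega)] at h2
      have e3 : n + 2 = y - 1 := by omega
      rw [e3, hy1] at h2
      cases h2
    rw [if_neg (by omega), if_neg (by omega)] at h1 h2 h3
    obtain ⟨e, he, he2⟩ := h.T1 n u hu h1 h2 h3
    have n1 : n ≠ y := by rintro rfl; rw [hy] at he; cases he
    have n2 : n ≠ y + 1 := by rintro rfl; rw [hp] at he; cases he
    rw [if_neg n2, if_neg n1]
    exact ⟨e, he, he2⟩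
  · intro n x hx h0 h1 h2 h3
    unfold upd at h0 h1 h2 h3 ⊢
    by_cases a0 : n = y + 1
    · rw [if_pos a0] at h0
      cases h0
    by_cases a1 : n = y
    · rw [if_neg a0, if_pos a1] at h0
      cases h0
      cases hc
    rw [if_neg a0, if_neg a1] at h0
    by_cases a2 : n + 1 = y
    · have e3 : n = y - 1 := by omega
      rw [e3, hy1] at h0
      cases h0
    by_cases a3 : n + 2 = y
    · have e3 : n = y - 2 := by omega
      rw [e3, hy2] at h0
      cases h0
    by_cases a4 : n + 3 = y
    · rw [if_pos (by omega)]
      exact ⟨lb, rfl, by decide⟩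
    rw [if_neg (by omega), if_neg (by omega)] at h1 h2 h3
    obtain ⟨e, he, he2⟩ := h.T2 n x hx h0 h1 h2 h3
    have n1 : n + 4 ≠ y := by intro e'; rw [e', hy] at he; cases he
    have n2 : n + 4 ≠ y + 1 := by intro e'; rw [e', hp] at he; cases he
    rw [if_neg n2, if_neg n1]
    exact ⟨e, he, he2⟩

/-- `B`'s answer: after any move of `A` either the invariant holds (and `B` passes) or `B` can
colour a neighbouring cell to restore it. -/
lemma answer {Q : ℤ → Option Col} (h : Inv Q) {y : ℤ} (hy : Q y = none) (c : Col) :
    Inv (upd Q y c) ∨ ∃ z c2, upd Q y c z = none ∧ Inv (upd (upd Q y c) z c2) := by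
  cases hc : isR c with
  | true =>
    cases hq : Q (y+1) with
    | none =>
      right
      exact ⟨y+1, pr c, by rw [upd_ne _ _ (by omega)]; exact hq, inv_caseA1 h hy c hc hq⟩
    | some c' =>
      have hc' := h.f2 hy c' hq
      by_cases hno : c' = rb ∧ Q (y+2) = some lb ∧ Q (y-1) = none
      · right
        obtain ⟨rfl, h2, h3⟩ := hno
        exact ⟨y-1, rb, by rw [upd_ne _ _ (by omega)]; exact h3, inv_caseA2 h hy c hc hq h2 h3⟩
      · left
        exact inv_passR h hy c c' hc hq hc' hno
  | false =>
    cases hq : Q (y-1) with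
    | none =>
      right
      exact ⟨y-1, pr c, by rw [upd_ne _ _ (by omega)]; exact hq, inv_caseB1 h hy c hc hq⟩
    | some c' =>
      have hc' := h.f1 hy c' hq
      by_cases hno : c' = lb ∧ Q (y-2) = some lb ∧ Q (y-3) = some rb ∧ Q (y+1) = none
      · right
        obtain ⟨rfl, h2, h3, h4⟩ := hno
        exact ⟨y+1, lb, by rw [upd_ne _ _ (by omega)]; exact h4, inv_caseB2 h hy c hc hq h2 h4⟩
      · left
        exact inv_passL h hy c c' hc hq hc' hno

/-- restriction to `ℤ` -/
def line (q : Position 1 Col) : ℤ → Option Col := fun n => q (cell n)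

lemma line_update (q : Position 1 Col) (n : ℤ) (c : Col) :
    line (Function.update q (cell n) (some c)) = upd (line q) n c := by
  funext m
  simp only [line, upd, Function.update_apply, cell_inj]

/-- the positions from which `B` survives -/
def Safe : Bool → Position 1 Col → Prop
  | true, q => Inv (line q)
  | false, q => NoPat (line q) ∧ (Inv (line q) ∨
      ∃ z c2, line q z = none ∧ Inv (upd (line q) z c2))

lemma not_winA_of_safe (t : Bool) (q : Position 1 Col) (hw : WinA True FF Set.univ t q) :
    ¬ Safe t q := by
  induction hw with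
  | final t q hp =>
    intro hs
    cases t with
    | true => exact not_appears_of_noPat (Inv.noPat hs) hp
    | false => exact not_appears_of_noPat hs.1 hp
  | moveA q q' hcol _ ih =>
    intro hs
    apply ih
    obtain ⟨x, _, a, hx, rfl⟩ := hcol
    obtain ⟨n, rfl⟩ := cell_surj x
    have hs' : Inv (line q) := hs
    have hn : line q n = none := hx
    refine ⟨?_, ?_⟩
    · rw [line_update]
      exact noPat_upd hs' hn a
    · rw [line_update]
      exact answer hs' hn a
  | passA q _ _ ih =>
    intro hs
    have hs' : Inv (line q) := hs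
    exact ih ⟨hs'.noPat, Or.inl hs'⟩
  | moveB q _ _ _ ih1 ih2 =>
    intro hs
    rcases hs.2 with h | ⟨z, c2, hz, h⟩
    · exact ih2 trivial h
    · refine ih1 (Function.update q (cell z) (some c2)) ⟨cell z, trivial, c2, hz, rfl⟩ ?_
      show Inv (line _)
      rw [line_update]
      exact h

lemma inv_empty : Inv (line (fun _ => none)) := by
  constructor <;> intro n <;> simp [line]

/-! ### `A` wins when passing is not allowed -/

lemma win_now {E : Set (Fin 1 → ℤ)} {q : Position 1 Col} {w : List Col} (hw : word w ∈ FF)
    (y : ℤ) (c : Col) (hyE : cell y ∈ E) (hy : q (cell y) = none) (n : ℤ)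
    (h : ∀ k < w.length, upd (line q) y c (n + k) = some (w.getD k ra)) :
    WinA False FF E true q := by
  refine WinA.moveA q _ ⟨cell y, hyE, c, hy, rfl⟩ (WinA.final _ _ (appears_of hw n ?_))
  intro k hk
  have := h k hk
  rw [← line_update] at this
  exact this


/-- the closed cluster `rb lb lb` on the cells `0, 1, 2` -/
def q3 : Position 1 Col :=
  Function.update (Function.update (Function.update (fun _ => none) (cell 0) (some rb))
    (cell 1) (some lb)) (cell 2) (some lb)

lemma line_q3 (n : ℤ) : line q3 n = if n = 2 then some lb else if n = 1 then some lb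
    else if n = 0 then some rb else none := by
  unfold q3
  rw [line_update, line_update, line_update]
  rfl

lemma stage3 : WinA False FF Set.univ false q3 := by
  refine WinA.moveB _ ⟨cell 5, trivial, ?_⟩ ?_ (fun h => h.elim)
  · show line q3 5 = none
    rw [line_q3]
    simp
  · rintro q' ⟨x, _, c, hx, rfl⟩
    obtain ⟨n, rfl⟩ := cell_surj x
    have hx' : line q3 n = none := hx
    rw [line_q3] at hx'
    have n2 : n ≠ 2 := by rintro rfl; simp at hx'
    have n1 : n ≠ 1 := by rintro rfl; simp at hx'
    have n0 : n ≠ 0 := by rintro rfl; simp at hx'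
    have hl : ∀ m, line (Function.update q3 (cell n) (some c)) m = if m = n then some c
        else if m = 2 then some lb else if m = 1 then some lb
        else if m = 0 then some rb else none := by
      intro m
      rw [line_update]
      unfold upd
      rw [line_q3]
    have hfree : ∀ m, m ≠ n → m ≠ 0 → m ≠ 1 → m ≠ 2 →
        (Function.update q3 (cell n) (some c)) (cell m) = none := by
      intro m h1 h2 h3 h4
      have := hl m
      rw [if_neg h1, if_neg h4, if_neg h3, if_neg h2] at this
      exact this
    cases c with
    | ra =>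
      by_cases hn : n = -1
      · subst hn
        refine win_now (w := [ra, ra, rb, lb]) (by simp [FF]) (-2) ra trivial
          (hfree _ (by omega) (by omega) (by omega) (by omega)) (-2) ?_
        intro k hk
        simp only [List.length_cons, List.length_nil] at hk
        interval_cases k <;> simp [upd, hl]
      · refine win_now (w := [ra, lb]) (by simp [FF]) (n+1) lb trivial
          (hfree _ (by omega) (by omega) (by omega) (by omega)) n ?_
        intro k hk
        simp only [List.length_cons, List.length_nil] at hk
        interval_cases k <;> simp [upd, hl]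
    | rb =>
      by_cases hn : n = -1
      · subst hn
        refine win_now (w := [ra, rb, rb, lb]) (by simp [FF]) (-2) ra trivial
          (hfree _ (by omega) (by omega) (by omega) (by omega)) (-2) ?_
        intro k hk
        simp only [List.length_cons, List.length_nil] at hk
        interval_cases k <;> simp [upd, hl]
      · refine win_now (w := [rb, la]) (by simp [FF]) (n+1) la trivial
          (hfree _ (by omega) (by omega) (by omega) (by omega)) n ?_
        intro k hk
        simp only [List.length_cons, List.length_nil] at hk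
        interval_cases k <;> simp [upd, hl]
    | la =>
      by_cases hn : n = 3
      · subst hn
        refine win_now (w := [rb, lb, lb, la, la]) (by simp [FF]) 4 la trivial
          (hfree _ (by omega) (by omega) (by omega) (by omega)) 0 ?_
        intro k hk
        simp only [List.length_cons, List.length_nil] at hk
        interval_cases k <;> simp [upd, hl]
      · refine win_now (w := [rb, la]) (by simp [FF]) (n-1) rb trivial
          (hfree _ (by omega) (by omega) (by omega) (by omega)) (n-1) ?_
        intro k hk
        simp only [List.length_cons, List.length_nil] at hk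
        (interval_cases k <;> simp [upd, hl]); omega
    | lb =>
      by_cases hn : n = 3
      · subst hn
        refine win_now (w := [rb, lb, lb, lb, la]) (by simp [FF]) 4 la trivial
          (hfree _ (by omega) (by omega) (by omega) (by omega)) 0 ?_
        intro k hk
        simp only [List.length_cons, List.length_nil] at hk
        interval_cases k <;> simp [upd, hl]
      · refine win_now (w := [ra, lb]) (by simp [FF]) (n-1) ra trivial
          (hfree _ (by omega) (by omega) (by omega) (by omega)) (n-1) ?_
        intro k hk
        simp only [List.length_cons, List.length_nil] at hk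
        (interval_cases k <;> simp [upd, hl]); omega

lemma line_q1 (m : ℤ) : line (Function.update (fun _ => none) (cell 0) (some rb)) m
    = if m = 0 then some rb else none := by
  rw [line_update]
  rfl

lemma stage1 : WinA False FF Set.univ false
    (Function.update (fun _ => none) (cell 0) (some rb)) := by
  refine WinA.moveB _ ⟨cell 5, trivial, ?_⟩ ?_ (fun h => h.elim)
  · show line (Function.update (fun _ => none) (cell 0) (some rb)) 5 = none
    rw [line_q1]
    simp
  · rintro q' ⟨x, _, c, hx, rfl⟩
    obtain ⟨n, rfl⟩ := cell_surj x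
    have hx' : line (Function.update (fun _ => none) (cell 0) (some rb)) n = none := hx
    rw [line_q1] at hx'
    have n0 : n ≠ 0 := by rintro rfl; simp at hx'
    have hl : ∀ m, line (Function.update (Function.update (fun _ => none) (cell 0) (some rb))
        (cell n) (some c)) m = if m = n then some c
        else if m = 0 then some rb else none := by
      intro m
      rw [line_update]
      unfold upd
      rw [line_q1]
    have hfree : ∀ m, m ≠ n → m ≠ 0 →
        (Function.update (Function.update (fun _ => none) (cell 0) (some rb))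
        (cell n) (some c)) (cell m) = none := by
      intro m h1 h2
      have := hl m
      rw [if_neg h1, if_neg h2] at this
      exact this
    by_cases hn : n = 1
    · subst hn
      cases c with
      | ra =>
        refine win_now (w := [ra, lb]) (by simp [FF]) 2 lb trivial
          (hfree _ (by omega) (by omega)) 1 ?_
        intro k hk
        simp only [List.length_cons, List.length_nil] at hk
        interval_cases k <;> simp [upd, hl]
      | rb =>
        refine win_now (w := [rb, la]) (by simp [FF]) 2 la trivial
          (hfree _ (by omega) (by omega)) 1 ?_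
        intro k hk
        simp only [List.length_cons, List.length_nil] at hk
        interval_cases k <;> simp [upd, hl]
      | la =>
        refine WinA.final _ _ (appears_of (w := [rb, la]) (by simp [FF]) 0 ?_)
        intro k hk
        simp only [List.length_cons, List.length_nil] at hk
        have h0 := hl 0
        have h1 := hl 1
        simp only [line] at h0 h1
        interval_cases k
        · simpa using h0
        · simp
      | lb =>
        exact WinA.moveA _ q3 ⟨cell 2, trivial, lb, hfree 2 (by omega) (by omega), rfl⟩ stage3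
    · refine win_now (w := [rb, la]) (by simp [FF]) 1 la trivial
        (hfree _ (by omega) (by omega)) 0 ?_
      intro k hk
      simp only [List.length_cons, List.length_nil] at hk
      interval_cases k
      · have : (0:ℤ) ≠ n := fun h => n0 h.symm
        simp [upd, hl, this]
      · simp [upd]

/-- **Theorem.** There is a subshift of finite type on `ℤ` (four colours, six forbidden words) such
that `A` wins the game without passing on `E = ℤ`, while the game with passing on `E = ℤ` is not
winning for `A`, that is, it is winning for `B`. -/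
theorem result : ∃ (𝒜 : Type) (_ : Finite 𝒜) (F : Set (Pattern 1 𝒜)), F.Finite ∧
    GammaStarWinA F Set.univ ∧ ¬ GammaWinA F Set.univ := by
  refine ⟨Col, inferInstance, FF, FF_finite, ?_, ?_⟩
  · exact WinA.moveA _ _ ⟨cell 0, trivial, rb, rfl, rfl⟩ stage1
  · intro h
    exact not_winA_of_safe true _ h inv_empty

end Pool.Agent.Results.MP_d015f1_co.ZugzwangOnZ
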